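import Pool.Agent.W_MP_f2fc76_an.Proof

set_option autoImplicit false

/-!
# Limit chain points of a flow and of its time-T map (MP_f2fc76_an, Q1)

For every semi-flow `F` on a metric space (only separate continuity is required, and no global
attractor is needed), every `T > 0` and all points `x, y`: `y` is a limit chain point of `x` for
`F` if and only if `y` is a limit chain point of `x` for the discrete-time system `F^T`.
-/

namespace Pool.Agent.Results.MP_f2fc76_an.FlowVsTimeT

open Pool.Agent.W_MP_f2fc76_an

/-- **Main theorem.** For every semi-flow `F` on a metric space, every `T > 0` and all points
`x, y`, the point `y` is a limit chain point of `x` for `F` if and only if it is a limit chain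
point of `x` for the discrete-time system given by `F^T`. -/
theorem result {X : Type*} [MetricSpace X] (F : SemiFlow X) (T : ℝ) (hT : 0 < T) (x y : X) :
    IsLimitChainPointFlow F x y ↔ IsLimitChainPointMap (F.toFun T) x y :=
  main_equiv F T hT x y

end Pool.Agent.Results.MP_f2fc76_an.FlowVsTimeT
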